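import Pool.Agent.H283.HT.Stm

/-!
# Project HT: Hahn-Banach for one point
-/

set_option autoImplicit false

namespace Pool.Agent.H59.HTHN

open Pool.Agent.H283.HT

/-- Every linear functional of `P3` is `ip n` for some `n`. -/
theorem exists_ip (f : P3 →L[ℝ] ℝ) : ∃ n : P3, ∀ y : P3, f y = ip n y := by
  refine ⟨((f ((1, 0), 0), f ((0, 1), 0)), f ((0, 0), 1)), fun y => ?_⟩
  obtain ⟨⟨y1, y2⟩, y3⟩ := y
  have e : (((y1, y2), y3) : P3) = y1 • (((1, 0), 0) : P3) + y2 • (((0, 1), 0) : P3) +
      y3 • (((0, 0), 1) : P3) := by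
    ext <;> simp
  rw [e, map_add, map_add, map_smul, map_smul, map_smul, ← e]
  simp only [ip, dt, smul_eq_mul]
  ring

theorem HN_done : S_HN := by
  intro K hK x hx d hd
  have hopen : IsOpen (interior K) := isOpen_interior
  have hconv : Convex ℝ (interior K) := hK.conv.interior
  obtain ⟨T, hT⟩ : ∃ T : Set P3, T = {y | ∃ t : ℝ, 0 < t ∧ y = x + t • d} := ⟨_, rfl⟩
  have hTc : Convex ℝ T := by
    rw [hT]
    rintro y ⟨t, ht, rfl⟩ z ⟨s, hs, rfl⟩ α β hα hβ hαβ
    refine ⟨α * t + β * s, ?_, ?_⟩
    · rcases eq_or_lt_of_le hα with h0 | h0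
      · rw [← h0, zero_add] at hαβ
        rw [← h0, hαβ, zero_mul, zero_add, one_mul]
        exact hs
      · have h1 : 0 < α * t := mul_pos h0 ht
        have h2 : 0 ≤ β * s := mul_nonneg hβ hs.le
        linarith
    · rw [smul_add, smul_add, smul_smul, smul_smul, add_smul]
      have h3 : x = α • x + β • x := by rw [← add_smul, hαβ, one_smul]
      conv_rhs => rw [h3]
      abel
  have hdisj : Disjoint (interior K) T := by
    rw [Set.disjoint_left]
    intro y hy hyT
    rw [hT] at hyT
    obtain ⟨t, ht, rfl⟩ := hyT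
    exact hd ⟨t, ht, hy⟩
  obtain ⟨f, u, hfu, huf⟩ := geometric_hahn_banach_open hconv hopen hTc hdisj
  have hKu : ∀ y ∈ K, f y ≤ u := by
    have h1 : closure (interior K) ⊆ {y | f y ≤ u} := by
      refine closure_minimal (fun y hy => (hfu y hy).le) ?_
      exact isClosed_le f.continuous continuous_const
    intro y hy
    apply h1
    rw [hK.conv.closure_interior_eq_closure_of_nonempty_interior hK.inner]
    exact subset_closure hy
  have hray : ∀ t : ℝ, 0 < t → u ≤ f x + t * f d := by
    intro t ht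
    have h1 := huf (x + t • d) (by rw [hT]; exact ⟨t, ht, rfl⟩)
    rw [map_add, map_smul, smul_eq_mul] at h1
    exact h1
  have hux : u ≤ f x := by
    by_contra hcon
    push Not at hcon
    have h0 : 0 < |f d| + 1 := by positivity
    have h1 := hray ((u - f x) / (2 * (|f d| + 1))) (by
      apply div_pos (by linarith) (by positivity))
    have h2 : (u - f x) / (2 * (|f d| + 1)) * f d ≤ (u - f x) / 2 := by
      have h3 : f d ≤ |f d| + 1 := by linarith [le_abs_self (f d)]
      have h4 : 0 ≤ (u - f x) / (2 * (|f d| + 1)) := by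
        apply div_nonneg (by linarith) (by positivity)
      calc (u - f x) / (2 * (|f d| + 1)) * f d
          ≤ (u - f x) / (2 * (|f d| + 1)) * (|f d| + 1) := mul_le_mul_of_nonneg_left h3 h4
        _ = (u - f x) / 2 := by field_simp
    linarith
  have hfx : f x = u := le_antisymm (hKu x hx) hux
  obtain ⟨n, hn⟩ := exists_ip f
  refine ⟨n, ?_, ?_, ?_⟩
  · rintro rfl
    obtain ⟨y, hy⟩ := hK.inner
    have h1 := hfu y hy
    rw [← hfx, hn, hn] at h1
    simp [ip, dt] at h1
  · intro y hy
    rw [← hn, ← hn, hfx]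
    exact hKu y hy
  · rw [← hn]
    have h1 := hray 1 one_pos
    linarith

end Pool.Agent.H59.HTHN
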