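import Pool.Agent.H465.OC.StmC

/-! Task C9 of project OC: the `p`-adic numbers embed into the complex numbers. -/

set_option autoImplicit false

namespace Pool.Agent.H59.OCEmb

open Cardinal

theorem card_le (p : ℕ) [Fact p.Prime] : #ℚ_[p] ≤ 𝔠 := by
  have h1 : #ℚ_[p] ≤ #(CauSeq ℚ (padicNorm p)) := Cardinal.mk_quotient_le
  have h2 : #(CauSeq ℚ (padicNorm p)) ≤ #(ℕ → ℚ) := Cardinal.mk_subtype_le _
  have h3 : #(ℕ → ℚ) = 𝔠 := by simp
  exact h1.trans (h2.trans h3.le)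

theorem emb (p : ℕ) [Fact p.Prime] : Nonempty (ℚ_[p] →+* ℂ) := by
  have h0 : 𝔠 ≤ #ℚ_[p] := continuum_le_cardinal_of_nontriviallyNormedField ℚ_[p]
  have h1 : #(AlgebraicClosure ℚ_[p]) ≤ 𝔠 := by
    refine (Algebra.IsAlgebraic.cardinalMk_le_max ℚ_[p] (AlgebraicClosure ℚ_[p])).trans ?_
    exact max_le (card_le p) aleph0_le_continuum
  have h2 : 𝔠 ≤ #(AlgebraicClosure ℚ_[p]) :=
    h0.trans (Cardinal.mk_le_of_injective (algebraMap ℚ_[p] (AlgebraicClosure ℚ_[p])).injective)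
  have h3 : #(AlgebraicClosure ℚ_[p]) = #ℂ := by
    rw [Cardinal.mk_complex]
    exact le_antisymm h1 h2
  have hc : CharZero (AlgebraicClosure ℚ_[p]) := charZero_of_injective_algebraMap
    (algebraMap ℚ_[p] (AlgebraicClosure ℚ_[p])).injective
  obtain ⟨e⟩ := IsAlgClosed.ringEquiv_of_equiv_of_charZero (K := AlgebraicClosure ℚ_[p]) (L := ℂ)
    (aleph0_lt_continuum.trans_le h2) (Cardinal.eq.1 h3)
  exact ⟨e.toRingHom.comp (algebraMap ℚ_[p] (AlgebraicClosure ℚ_[p]))⟩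

theorem main : Pool.Agent.H465.OC.Emb := fun p _ => emb p

end Pool.Agent.H59.OCEmb
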