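import Pool.Agent.H646.EC.Stm

set_option autoImplicit false

namespace Pool.Agent.H59.ECtw

open Pool.Agent.H646.EC

lemma gam_zpow (d : Dat) (c c' : Fin d.m → Bool) (z z' : ℤ)
    (h : ∀ a, ((d.p a : ℕ) : ℤ) ∣ (ex (c' a) : ℤ) * z' - (ex (c a) : ℤ) * z) :
    gam d c' ^ z' = gam d c ^ z := by
  apply MulEquiv.piUnits.injective
  rw [map_zpow, map_zpow, gam, gam, MulEquiv.apply_symm_apply, MulEquiv.apply_symm_apply]
  funext a
  rw [Pi.pow_apply, Pi.pow_apply, ← zpow_natCast, ← zpow_natCast, ← zpow_mul, ← zpow_mul,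
    zpow_eq_zpow_iff_modEq, d.ord a]
  exact (Int.modEq_iff_dvd.2 (h a)).symm

lemma ex_cop (d : Dat) (b : Bool) (a : Fin d.m) : Nat.Coprime (ex b) (d.p a) := by
  have h1 := d.big a
  have h2 := d.pp a
  rcases b with _ | _
  · simp [ex]
  · simp only [ex, if_true]
    exact (Nat.coprime_primes Nat.prime_two h2).2 (by omega)

/-- the unit modulo the product of the primes -/
lemma exists_unit (d : Dat) (c c' : Fin d.m → Bool) : ∃ u : (ZMod (∏ a, d.p a))ˣ,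
    ∀ a, (ex (c' a) : ZMod (d.p a)) * ZMod.castHom (Finset.dvd_prod_of_mem d.p (Finset.mem_univ a)) (ZMod (d.p a))
      (u : ZMod (∏ a, d.p a)) = (ex (c a) : ZMod (d.p a)) := by
  have hco : Pairwise (Function.onFun Nat.Coprime d.p) := fun a b hab =>
    (Nat.coprime_primes (d.pp a) (d.pp b)).2 fun h => hab (d.pinj h)
  let e := ZMod.prodEquivPi d.p hco
  let w : ∀ a, (ZMod (d.p a))ˣ := fun a =>
    ZMod.unitOfCoprime (ex (c a)) (ex_cop d (c a) a) * (ZMod.unitOfCoprime (ex (c' a)) (ex_cop d (c' a) a))⁻¹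
  refine ⟨Units.mapEquiv e.symm.toMulEquiv (MulEquiv.piUnits.symm w), fun a => ?_⟩
  have h1 : ZMod.castHom (Finset.dvd_prod_of_mem d.p (Finset.mem_univ a)) (ZMod (d.p a)) =
      (Pi.evalRingHom (fun a => ZMod (d.p a)) a).comp (e : ZMod (∏ a, d.p a) →+* _) :=
    RingHom.ext_zmod _ _
  rw [h1]
  have h2 : ((Pi.evalRingHom (fun a => ZMod (d.p a)) a).comp (e : ZMod (∏ a, d.p a) →+* _))
      ((Units.mapEquiv e.symm.toMulEquiv (MulEquiv.piUnits.symm w) : (ZMod (∏ a, d.p a))ˣ) :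
        ZMod (∏ a, d.p a)) = (w a : ZMod (d.p a)) := by
    change e (e.symm (fun a => (w a : ZMod (d.p a)))) a = _
    rw [RingEquiv.apply_symm_apply]
  rw [h2]
  simp only [w]
  have h3 : (ex (c' a) : ZMod (d.p a)) =
      ((ZMod.unitOfCoprime (ex (c' a)) (ex_cop d (c' a) a) : (ZMod (d.p a))ˣ) : ZMod (d.p a)) := rfl
  rw [h3, ← Units.val_mul, mul_comm, inv_mul_cancel_right]
  rfl

theorem holds : S_tw := by
  intro d c c'
  have hN : 0 < ∏ a, d.p a := Finset.prod_pos fun a _ => (d.pp a).pos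
  obtain ⟨u, hu⟩ := exists_unit d c c'
  refine ⟨∏ a, d.p a, hN, fun M hM => ?_⟩
  have : NeZero ((∏ a, d.p a) * M) := ⟨by positivity⟩
  obtain ⟨v, hv⟩ := ZMod.unitsMap_surjective (Dvd.intro M rfl : (∏ a, d.p a) ∣ (∏ a, d.p a) * M) u
  refine ⟨((v : ZMod ((∏ a, d.p a) * M)).val : ℤ), (((v⁻¹ : (ZMod ((∏ a, d.p a) * M))ˣ) :
    ZMod ((∏ a, d.p a) * M)).val : ℤ), ?_, fun z z' hz => ?_⟩
  · rw [← ZMod.intCast_zmod_eq_zero_iff_dvd]
    push_cast
    rw [ZMod.natCast_zmod_val, ZMod.natCast_zmod_val, Units.mul_inv, sub_self]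
  · refine gam_zpow d c c' z z' fun a => ?_
    rw [← ZMod.intCast_zmod_eq_zero_iff_dvd]
    have ha : d.p a ∣ ∏ a, d.p a := Finset.dvd_prod_of_mem d.p (Finset.mem_univ a)
    have h1 : ((d.p a : ℕ) : ℤ) ∣ z' - ((v : ZMod ((∏ a, d.p a) * M)).val : ℤ) * z :=
      (Int.natCast_dvd_natCast.2 ha).trans hz
    rw [← ZMod.intCast_zmod_eq_zero_iff_dvd] at h1
    push_cast at h1
    rw [sub_eq_zero] at h1
    have h2 : (((v : ZMod ((∏ a, d.p a) * M)).val : ℕ) : ZMod (d.p a)) =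
        ZMod.castHom ha (ZMod (d.p a)) (u : ZMod (∏ a, d.p a)) := by
      rw [← hv]
      have h3 : ((ZMod.unitsMap (Dvd.intro M rfl : (∏ a, d.p a) ∣ (∏ a, d.p a) * M) v :
          (ZMod (∏ a, d.p a))ˣ) : ZMod (∏ a, d.p a)) =
          ZMod.castHom (Dvd.intro M rfl : (∏ a, d.p a) ∣ (∏ a, d.p a) * M) (ZMod (∏ a, d.p a))
            (v : ZMod ((∏ a, d.p a) * M)) := rfl
      rw [h3, ← RingHom.comp_apply]
      have h4 : (ZMod.castHom ha (ZMod (d.p a))).comp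
          (ZMod.castHom (Dvd.intro M rfl : (∏ a, d.p a) ∣ (∏ a, d.p a) * M) (ZMod (∏ a, d.p a))) =
          ZMod.castHom (ha.trans (Dvd.intro M rfl)) (ZMod (d.p a)) := RingHom.ext_zmod _ _
      rw [h4]
      conv_rhs => rw [← ZMod.natCast_zmod_val (v : ZMod ((∏ a, d.p a) * M))]
      rw [map_natCast]
    push_cast
    rw [h1, h2, ← mul_assoc, hu a, sub_self]

end Pool.Agent.H59.ECtw

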