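import Pool.Agent.H867.FT.Gen2

/-!
# MP_7dd379_ag, project FT: the statement `S_CHI`
-/

set_option autoImplicit false

namespace Pool.Agent.H59.FT867CHI

open Polynomial Pool.Agent.H867.FT

section ring
variable {P : Type} [CommRing P] [IsDomain P]

/-- the polynomial of `χ` -/
noncomputable def GG (a b c z ρ : P) (k : ℕ) : Polynomial P :=
  C (a * z ^ (2 * k)) * X ^ 3 + C (b * z ^ k) * X ^ 2 + C c * X + C ρ

theorem GG_coeff_zero (a b c z ρ : P) (k : ℕ) : (GG a b c z ρ k).coeff 0 = ρ := by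
  simp [GG]

theorem GG_coeff_one (a b c z ρ : P) (k : ℕ) : (GG a b c z ρ k).coeff 1 = c := by
  simp only [GG, coeff_add, coeff_C_mul, coeff_X_pow, coeff_X_one, coeff_C]
  simp

theorem GG_coeff_three (a b c z ρ : P) (k : ℕ) :
    (GG a b c z ρ k).coeff 3 = a * z ^ (2 * k) := by
  simp only [GG, coeff_add, coeff_C_mul, coeff_X_pow, coeff_X, coeff_C]
  simp

theorem GG_dvd {a b c z ρ : P} {k : ℕ} (hc0 : c ≠ 0) (hcρ : ∀ u, c ∣ ρ * u → c ∣ u) {s : P}
    (hs : s ≠ 0) {H : Polynomial P} (h : C s ∣ GG a b c z ρ k * H) : C s ∣ H := by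
  obtain ⟨G, hG⟩ : ∃ G, G = GG a b c z ρ k := ⟨_, rfl⟩
  rw [← hG] at h
  have hG0 : G.coeff 0 = ρ := by rw [hG, GG_coeff_zero]
  have hG1 : G.coeff 1 = c := by rw [hG, GG_coeff_one]
  have hmem : ∀ u : P, Ideal.Quotient.mk (Ideal.span {s}) u = 0 ↔ s ∣ u := fun u => by
    rw [Ideal.Quotient.eq_zero_iff_mem, Ideal.mem_span_singleton]
  have hnz : G.map (Ideal.Quotient.mk (Ideal.span {s})) ∈
      nonZeroDivisors (Polynomial (P ⧸ Ideal.span {s})) := by
    rw [Polynomial.mem_nonZeroDivisors_iff]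
    intro u hu
    obtain ⟨u', rfl⟩ := Ideal.Quotient.mk_surjective u
    have h0 : s ∣ u' * ρ := by
      have e := congrArg (fun p => Polynomial.coeff p 0) hu
      simp only [coeff_smul, coeff_map, hG0, smul_eq_mul, coeff_zero] at e
      rw [← map_mul] at e
      exact (hmem _).1 e
    have h1 : s ∣ u' * c := by
      have e := congrArg (fun p => Polynomial.coeff p 1) hu
      simp only [coeff_smul, coeff_map, hG1, smul_eq_mul, coeff_zero] at e
      rw [← map_mul] at e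
      exact (hmem _).1 e
    rw [hmem]
    obtain ⟨ρ', hρ'⟩ := h0
    obtain ⟨c', hc'⟩ := h1
    have h2 : c * ρ' = ρ * c' := by
      apply mul_left_cancel₀ hs
      linear_combination (-c) * hρ' + ρ * hc'
    obtain ⟨c'', hc''⟩ := hcρ c' ⟨ρ', h2.symm⟩
    refine ⟨c'', ?_⟩
    apply mul_left_cancel₀ hc0
    rw [hc''] at hc'
    linear_combination hc'
  have hz : G.map (Ideal.Quotient.mk (Ideal.span {s})) *
      H.map (Ideal.Quotient.mk (Ideal.span {s})) = 0 := by
    rw [← Polynomial.map_mul]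
    obtain ⟨W, hW⟩ := h
    rw [hW, Polynomial.map_mul, Polynomial.map_C, (hmem s).2 dvd_rfl, C_0, zero_mul]
  have hH : H.map (Ideal.Quotient.mk (Ideal.span {s})) = 0 :=
    (mul_left_mem_nonZeroDivisors_eq_zero_iff hnz).1 hz
  rw [C_dvd_iff_dvd_coeff]
  intro i
  rw [← hmem, ← coeff_map, hH, coeff_zero]

/-- the case `j = 1` -/
theorem GG_one {a b c z ρ : P} {k : ℕ} (hk : 1 ≤ k) (hzc : ∀ u, z ∣ c * u → z ∣ u)
    (hρ : ∀ u, ρ * u ∈ Ideal.span {c, z} → u ∈ Ideal.span {c, z}) {Q A B : Polynomial P}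
    (h : C c * Q = C z * A + GG a b c z ρ k * B) :
    ∃ A' B' : Polynomial P, Q = C z * A' + GG a b c z ρ k * B' := by
  obtain ⟨k, rfl⟩ : ∃ k', k = k' + 1 := ⟨k - 1, by omega⟩
  obtain ⟨G', hG'⟩ : ∃ G' : Polynomial P, GG a b c z ρ (k + 1) = C z * G' + C c * X + C ρ := by
    refine ⟨C (a * z ^ (2 * k + 1)) * X ^ 3 + C (b * z ^ k) * X ^ 2, ?_⟩
    unfold GG
    simp only [C_mul, C_pow]
    ring
  obtain ⟨G, hG⟩ : ∃ G, G = GG a b c z ρ (k + 1) := ⟨_, rfl⟩
  rw [← hG] at h hG' ⊢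
  have hmap : Ideal.map (C : P →+* Polynomial P) (Ideal.span {c, z}) =
      Ideal.span {C c, C z} := by
    rw [Ideal.map_span, Set.image_pair]
  have h1 : C ρ * B ∈ Ideal.span {C c, C z} := by
    have e : C ρ * B = (Q - X * B) * C c + (-A - G' * B) * C z := by
      rw [hG'] at h
      linear_combination (-1 : Polynomial P) * h
    rw [e]
    exact Ideal.add_mem _ (Ideal.mul_mem_left _ _ (Ideal.subset_span (by simp)))
      (Ideal.mul_mem_left _ _ (Ideal.subset_span (by simp)))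
  have h2 : B ∈ Ideal.span {C c, C z} := by
    rw [← hmap, Ideal.mem_map_C_iff] at h1 ⊢
    intro i
    apply hρ
    have := h1 i
    rwa [coeff_C_mul] at this
  obtain ⟨B₂, B₁, hB⟩ := Ideal.mem_span_pair.1 h2
  have h3 : C z ∣ C c * (Q - G * B₂) := by
    refine ⟨A + G * B₁, ?_⟩
    rw [← hB] at h
    linear_combination h
  have h4 : C z ∣ Q - G * B₂ := by
    rw [C_dvd_iff_dvd_coeff] at h3 ⊢
    intro i
    apply hzc
    have := h3 i
    rwa [coeff_C_mul] at this
  obtain ⟨A', hA'⟩ := h4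
  exact ⟨A', B₂, by linear_combination hA'⟩

theorem GG_pow {a b c z ρ : P} {k : ℕ} (hk : 1 ≤ k) (hz0 : z ≠ 0) (hc0 : c ≠ 0)
    (hzc : ∀ u, z ∣ c * u → z ∣ u) (hcρ : ∀ u, c ∣ ρ * u → c ∣ u)
    (hρ : ∀ u, ρ * u ∈ Ideal.span {c, z} → u ∈ Ideal.span {c, z}) (j : ℕ) :
    ∀ Q A B : Polynomial P, C c * Q = C z ^ j * A + GG a b c z ρ k * B →
    ∃ A' B' : Polynomial P, Q = C z ^ j * A' + GG a b c z ρ k * B' := by
  induction j with
  | zero =>
    intro Q A B _
    exact ⟨Q, 0, by ring⟩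
  | succ j ih =>
    intro Q A B h
    have h' : C c * Q = C z * (C z ^ j * A) + GG a b c z ρ k * B := by
      rw [h]; ring
    obtain ⟨A₁, B₁, hQ⟩ := GG_one hk hzc hρ h'
    have h1 : C z ∣ GG a b c z ρ k * (B - C c * B₁) := by
      refine ⟨C c * A₁ - C z ^ j * A, ?_⟩
      rw [hQ] at h
      linear_combination (-1 : Polynomial P) * h
    obtain ⟨B₂, hB₂⟩ := GG_dvd hc0 hcρ hz0 h1
    have hCz : (C z : Polynomial P) ≠ 0 := by rwa [Ne, C_eq_zero]
    have h2 : C c * A₁ = C z ^ j * A + GG a b c z ρ k * B₂ := by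
      apply mul_left_cancel₀ hCz
      rw [hQ] at h
      linear_combination h + GG a b c z ρ k * hB₂
    obtain ⟨A₃, B₃, hA₁⟩ := ih _ _ _ h2
    refine ⟨A₃, C z * B₃ + B₁, ?_⟩
    rw [hQ, hA₁]
    ring

theorem GG_pow_pow {a b c z ρ : P} {k : ℕ} (hk : 1 ≤ k) (hz0 : z ≠ 0) (hc0 : c ≠ 0)
    (hzc : ∀ u, z ∣ c * u → z ∣ u) (hcρ : ∀ u, c ∣ ρ * u → c ∣ u)
    (hρ : ∀ u, ρ * u ∈ Ideal.span {c, z} → u ∈ Ideal.span {c, z}) (j m : ℕ) :
    ∀ Q A B : Polynomial P, C c ^ m * Q = C z ^ j * A + GG a b c z ρ k * B →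
    ∃ A' B' : Polynomial P, Q = C z ^ j * A' + GG a b c z ρ k * B' := by
  induction m with
  | zero =>
    intro Q A B h
    exact ⟨A, B, by rw [← h]; ring⟩
  | succ m ih =>
    intro Q A B h
    have h' : C c * (C c ^ m * Q) = C z ^ j * A + GG a b c z ρ k * B := by
      rw [← h]; ring
    obtain ⟨A₁, B₁, h1⟩ := GG_pow hk hz0 hc0 hzc hcρ hρ j _ _ _ h'
    exact ih _ _ _ h1

end ring

theorem chi : S_CHI := by
  intro P L K _ _ _ _ _ _ _ _ _ a b c z ρ k n j x χ t hk ha hz hc heq hind hzc hcρ hρ hχ hzt hct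
  have hPL : Function.Injective (algebraMap P L) := IsFractionRing.injective P L
  have hLK : Function.Injective (algebraMap L K) := (algebraMap L K).injective
  have hPK : Function.Injective (algebraMap P K) := by
    rw [IsScalarTower.algebraMap_eq P L K]
    exact hLK.comp hPL
  have hzK : algebraMap P K z ≠ 0 := by
    rw [Ne, map_eq_zero_iff _ hPK]; exact hz
  have hzL : algebraMap P L z ≠ 0 := by
    rw [Ne, map_eq_zero_iff _ hPL]; exact hz
  obtain ⟨G, hG⟩ : ∃ G, G = GG a b c z ρ k := ⟨_, rfl⟩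
  -- `G(χ) = 0`
  have hGχ : aeval χ G = 0 := by
    have e : algebraMap P K (z ^ k) * aeval χ G = 0 := by
      rw [hG, GG]
      simp only [map_add, map_mul, map_pow, aeval_C, aeval_X]
      rw [← hχ] at heq
      simp only [map_mul, map_pow] at heq
      linear_combination heq
    rw [map_pow] at e
    exact (mul_eq_zero.1 e).resolve_left (pow_ne_zero _ hzK)
  -- independence of `1, χ, χ²`
  have hind' : ∀ l₀ l₁ l₂ : L, algebraMap L K l₀ + algebraMap L K l₁ * χ +
      algebraMap L K l₂ * χ ^ 2 = 0 → l₀ = 0 ∧ l₁ = 0 ∧ l₂ = 0 := by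
    intro l₀ l₁ l₂ h
    have e := hind (algebraMap P L (z ^ k) ^ 2 * l₀) (algebraMap P L (z ^ k) * l₁) l₂ (by
      rw [← hχ]
      simp only [map_mul, map_pow, ← IsScalarTower.algebraMap_apply P L K]
      linear_combination (algebraMap P K z ^ k) ^ 2 * h)
    have hzk : algebraMap P L (z ^ k) ≠ 0 := by
      rw [map_pow]; exact pow_ne_zero _ hzL
    obtain ⟨e0, e1, e2⟩ := e
    exact ⟨(mul_eq_zero.1 e0).resolve_left (pow_ne_zero _ hzk),
      (mul_eq_zero.1 e1).resolve_left hzk, e2⟩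
  -- (ii)
  have hroot : ∀ Q : Polynomial P, aeval χ Q = 0 → G ∣ Q := by
    intro Q hQ
    obtain ⟨gL, hgL⟩ : ∃ gL, gL = G.map (algebraMap P L) := ⟨_, rfl⟩
    obtain ⟨qL, hqL⟩ : ∃ qL, qL = Q.map (algebraMap P L) := ⟨_, rfl⟩
    have hG0 : gL ≠ 0 := by
      rw [hgL, Ne, Polynomial.map_eq_zero_iff hPL]
      intro h0
      have e := congrArg (fun p => Polynomial.coeff p 1) h0
      simp only [coeff_zero] at e
      rw [hG, GG_coeff_one] at e
      exact hc e
    have hGdeg : gL.natDegree ≤ 3 := by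
      rw [hgL]
      refine (natDegree_map_le).trans ?_
      rw [hG, GG]
      compute_degree
    have hmod : qL % gL = 0 := by
      obtain ⟨Rm, hRm⟩ : ∃ Rm, Rm = qL % gL := ⟨_, rfl⟩
      have hev : aeval χ Rm = 0 := by
        have e := EuclideanDomain.mod_add_div qL gL
        rw [← hRm] at e
        have e2 : aeval χ qL = 0 := by
          rw [hqL, aeval_map_algebraMap, hQ]
        have e3 : aeval χ gL = 0 := by
          rw [hgL, aeval_map_algebraMap, hGχ]
        rw [← e, map_add, map_mul, e3, zero_mul, add_zero] at e2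
        exact e2
      have hG3 : gL.coeff 3 ≠ 0 := by
        rw [hgL, coeff_map, Ne, map_eq_zero_iff _ hPL, hG]
        rw [GG_coeff_three]
        exact mul_ne_zero ha (pow_ne_zero _ hz)
      have hGdeg3 : gL.natDegree = 3 :=
        le_antisymm hGdeg (le_natDegree_of_ne_zero hG3)
      have hdeg : Rm.natDegree < 3 := by
        have e := natDegree_mod_lt qL (q := gL) (by rw [hGdeg3]; norm_num)
        rw [← hRm, hGdeg3] at e
        exact e
      rw [aeval_eq_sum_range' hdeg, Finset.sum_range_succ, Finset.sum_range_succ,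
        Finset.sum_range_one] at hev
      simp only [Algebra.smul_def, pow_zero, mul_one, pow_one] at hev
      obtain ⟨r0, r1, r2⟩ := hind' _ _ _ hev
      rw [← hRm]
      ext i
      rw [coeff_zero]
      rcases Nat.lt_or_ge i 3 with hi | hi
      · interval_cases i
        · exact r0
        · exact r1
        · exact r2
      · exact coeff_eq_zero_of_natDegree_lt (lt_of_lt_of_le hdeg hi)
    obtain ⟨bL, hbL⟩ : gL ∣ qL := (EuclideanDomain.mod_eq_zero).1 hmod
    obtain ⟨s, hs⟩ := IsLocalization.integerNormalization_map_to_map (nonZeroDivisors P) bL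
    obtain ⟨B, hB⟩ : ∃ B, B = IsLocalization.integerNormalization (nonZeroDivisors P) bL :=
      ⟨_, rfl⟩
    rw [← hB] at hs
    have hs0 : (s : P) ≠ 0 := nonZeroDivisors.ne_zero s.2
    have hmul : C (s : P) * Q = G * B := by
      apply Polynomial.map_injective _ hPL
      rw [Polynomial.map_mul, Polynomial.map_mul, hs, ← hqL, ← hgL, hbL, map_C,
        Algebra.smul_def, Polynomial.algebraMap_apply]
      ring
    have hdvd : C (s : P) ∣ GG a b c z ρ k * B := ⟨Q, by rw [← hG]; exact hmul.symm⟩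
    obtain ⟨B', hB'⟩ := GG_dvd hc hcρ hs0 hdvd
    refine ⟨B', ?_⟩
    have hCs : (C (s : P) : Polynomial P) ≠ 0 := by rwa [Ne, C_eq_zero]
    apply mul_left_cancel₀ hCs
    rw [hmul, hB']
    ring
  -- (iv)
  have hMn : ∀ y ∈ Mn P x n, ∃ Q : Polynomial P, aeval χ Q = y := by
    intro y hy
    have hle : Mn P x n ≤ Subalgebra.toSubmodule (Algebra.adjoin P {χ}) := by
      rw [Submodule.span_le]
      rintro _ ⟨i, rfl⟩
      have hχm : χ ∈ Algebra.adjoin P {χ} := Algebra.subset_adjoin (Set.mem_singleton χ)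
      have hxm : x ∈ Algebra.adjoin P {χ} := by
        rw [← hχ]
        exact Subalgebra.mul_mem _ (Subalgebra.algebraMap_mem _ _) hχm
      exact Subalgebra.pow_mem _ hxm _
    have h1 : y ∈ Algebra.adjoin P {χ} := hle hy
    rw [Algebra.adjoin_singleton_eq_range_aeval] at h1
    exact h1
  obtain ⟨Q₁, hQ₁⟩ := hMn _ hzt
  obtain ⟨Q₂, hQ₂⟩ := hMn _ hct
  have hd := hroot (C c ^ j * Q₁ - C z ^ j * Q₂) (by
    simp only [map_sub, map_mul, map_pow, aeval_C]
    rw [hQ₁, hQ₂]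
    simp only [map_pow]
    ring)
  obtain ⟨B, hB⟩ := hd
  have hfin : C c ^ j * Q₁ = C z ^ j * Q₂ + GG a b c z ρ k * B := by
    rw [← hG]
    linear_combination hB
  obtain ⟨A', B', hAB⟩ := GG_pow_pow hk hz hc hzc hcρ hρ j j _ _ _ hfin
  rw [← hG] at hAB
  have ht : t = aeval χ A' := by
    have e := hQ₁
    rw [hAB] at e
    simp only [map_add, map_mul, map_pow, aeval_C, hGχ, zero_mul, add_zero] at e
    exact (mul_left_cancel₀ (pow_ne_zero _ hzK) e).symm
  rw [ht, Algebra.adjoin_singleton_eq_range_aeval]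
  exact ⟨A', rfl⟩

end Pool.Agent.H59.FT867CHI
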