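import Pool.Agent.H840.MX.Stm

/-!
# MP_afef76_ag, project MX: the Nullstellensatz for three variables, and its version for a valuation
-/

set_option autoImplicit false

namespace Pool.Agent.H59.MXnul

open MvPolynomial Pool.Agent.T2H40.MI Pool.Agent.H840.MX

theorem NUL : S_NUL := by
  intro A hA
  have h1 : ∀ i : Fin 3, (X i : S) ∈ (Ideal.span A).radical := by
    intro i
    rw [← vanishingIdeal_zeroLocus_eq_radical (K := ℂ), mem_vanishingIdeal_iff]
    intro x hx
    rw [mem_zeroLocus_iff] at hx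
    rw [aeval_X]
    by_contra hxi
    have hx0 : x ≠ 0 := fun h0 => hxi (by rw [h0]; rfl)
    obtain ⟨h, hh, hne⟩ := hA x hx0
    apply hne
    have h2 := hx h (Ideal.subset_span hh)
    rw [← coe_aeval_eq_eval]
    exact h2
  choose n hn using h1
  refine ⟨n 0 + n 1 + n 2, fun i => ?_⟩
  have hle : n i ≤ n 0 + n 1 + n 2 := by
    fin_cases i <;> simp <;> omega
  exact (Ideal.span A).pow_mem_of_pow_mem (hn i) hle

/-- The lower bound for a homogeneous polynomial. -/
theorem hom_ge (v : AddValuation S ℕ∞) {n : ℕ} (hn : ∀ i, (n : ℕ∞) ≤ v (X i)) {g : S} {D : ℕ}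
    (hg : g.IsHomogeneous D) : ((D * n : ℕ) : ℕ∞) ≤ v g := by
  by_cases hg0 : g = 0
  · rw [hg0, v.map_zero]
    exact le_top
  obtain ⟨m, hm, hm'⟩ := exists_le v (fun i => (X i : S)) hg0 (α := fun _ => n) hn
  have e1 : aeval (fun i => (X i : S)) g = g := aeval_X_left_apply g
  rw [e1] at hm'
  refine le_trans (Nat.cast_le.2 ?_) hm'
  rw [← hom_deg hg hm, wt]
  nlinarith

/-- All homogeneous components have a large value. -/
def Big (v : AddValuation S ℕ∞) (n : ℕ) (f : S) : Prop :=
  ∀ D : ℕ, ((D * n : ℕ) : ℕ∞) < v (homogeneousComponent D f)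

theorem Big.mul {v : AddValuation S ℕ∞} {n : ℕ} (hn : ∀ i, (n : ℕ∞) ≤ v (X i)) (a : S) {f : S}
    (hf : Big v n f) : Big v n (a * f) := by
  intro D
  have e1 : a * f = ∑ i ∈ Finset.range (a.totalDegree + 1), ∑ j ∈ Finset.range (f.totalDegree + 1),
      homogeneousComponent i a * homogeneousComponent j f := by
    conv_lhs => rw [← sum_homogeneousComponent a, ← sum_homogeneousComponent f]
    rw [Finset.sum_mul_sum]
  rw [e1, map_sum]
  refine v.map_lt_sum (ENat.natCast_ne_top _) fun i _ => ?_
  rw [map_sum]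
  refine v.map_lt_sum (ENat.natCast_ne_top _) fun j _ => ?_
  have h2 : (homogeneousComponent i a * homogeneousComponent j f).IsHomogeneous (i + j) :=
    (homogeneousComponent_isHomogeneous i a).mul (homogeneousComponent_isHomogeneous j f)
  rw [homogeneousComponent_of_mem h2]
  by_cases hD : D = i + j
  · rw [if_pos hD, v.map_mul, hD]
    have h3 := hom_ge v hn (homogeneousComponent_isHomogeneous i a)
    have h4 := hf j
    have h5 : (((i + j) * n : ℕ) : ℕ∞) = ((i * n : ℕ) : ℕ∞) + ((j * n : ℕ) : ℕ∞) := by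
      rw [← Nat.cast_add, add_mul]
    rw [h5]
    exact ENat.add_lt_add_of_le_of_lt (ENat.natCast_ne_top _) h3 h4
  · rw [if_neg hD, v.map_zero]
    exact ENat.natCast_lt_top _

theorem VN : S_VN := by
  intro v n hn hex A hA
  by_contra hcon
  push Not at hcon
  obtain ⟨N, hN⟩ := NUL A hcon
  obtain ⟨i, hi⟩ := hex
  have h1 : ∀ f ∈ Ideal.span A, Big v n f := by
    intro f hf
    refine Submodule.span_induction ?_ ?_ ?_ ?_ hf
    · intro h hh D
      obtain ⟨d, hd, hd'⟩ := hA h hh
      rw [homogeneousComponent_of_mem hd]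
      by_cases hD : D = d
      · rw [if_pos hD, hD]
        exact hd'
      · rw [if_neg hD, v.map_zero]
        exact ENat.natCast_lt_top _
    · intro D
      rw [map_zero, v.map_zero]
      exact ENat.natCast_lt_top _
    · intro x y _ _ hx hy D
      rw [map_add]
      exact v.map_lt_add (hx D) (hy D)
    · intro a x _ hx
      rw [smul_eq_mul]
      exact hx.mul hn a
  have h2 := h1 _ (hN i) N
  have h3 : ((X i : S) ^ N).IsHomogeneous N := by
    have := (isHomogeneous_X ℂ i).pow N
    rwa [one_mul] at this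
  rw [homogeneousComponent_eq_self h3, v.map_pow, hi, nsmul_eq_mul, ← Nat.cast_mul] at h2
  exact lt_irrefl _ h2

end Pool.Agent.H59.MXnul
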