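import Mathlib
import Pool.Agent.H576.RD.Stm

/-!
# T3: locally antipodal Delone sets are regular
-/

set_option autoImplicit false

open Pool.Agent.H576.RD

namespace Pool.Agent.H59

theorem rd_t3_gap (S : Set ℝ) (hS : S.Finite) :
    ∃ γ : ℝ, 0 < γ ∧ γ ≤ 1 ∧ ∀ s ∈ S, 2 < s → 2 + γ < s := by
  induction S, hS using Set.Finite.induction_on with
  | empty => exact ⟨1, one_pos, le_refl _, fun s hs => absurd hs (Set.notMem_empty s)⟩
  | @insert a S ha hS ih =>
    obtain ⟨γ, h0, h1, h2⟩ := ih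
    by_cases ha2 : 2 < a
    · refine ⟨min γ ((a - 2) / 2), lt_min h0 (by linarith), (min_le_left _ _).trans h1, ?_⟩
      intro s hs h2s
      rcases Set.mem_insert_iff.1 hs with rfl | hs
      · have := min_le_right γ ((s - 2) / 2)
        linarith
      · have := min_le_left γ ((a - 2) / 2)
        have := h2 s hs h2s
        linarith
    · refine ⟨γ, h0, h1, ?_⟩
      intro s hs h2s
      rcases Set.mem_insert_iff.1 hs with rfl | hs
      · exact absurd h2s ha2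
      · exact h2 s hs h2s

/-- T3. -/
theorem rd_t3 (h1 : S_FINK) : S_T3 := by
  intro r X hD hN hA
  obtain ⟨x0, hx0, -⟩ := hD.cov 0
  -- the gap
  obtain ⟨γ, hγ0, hγ1, hγ⟩ := rd_t3_gap ((fun v : E => ‖v‖) '' {v : E | ‖v‖ ≤ 3 ∧ x0 + v ∈ X})
    ((h1 r X x0 3 hD).image _)
  have gap : ∀ y ∈ X, ∀ z ∈ X, ‖z - y‖ ≤ 2 + γ → ‖z - y‖ ≤ 2 := by
    intro y hy z hz hyz
    by_contra hlt
    rw [not_le] at hlt
    obtain ⟨g, hg⟩ := hN y hy x0 hx0
    have h3 : ‖z - y‖ ≤ 3 := by linarith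
    have h4 : x0 + g (z - y) ∈ X := (hg (z - y) h3).1 (by rw [add_sub_cancel]; exact hz)
    have h5 : ‖g (z - y)‖ = ‖z - y‖ := LinearIsometryEquiv.norm_map g _
    have h6 := hγ ‖z - y‖ ⟨g (z - y), ⟨by rw [h5]; exact h3, h4⟩, h5⟩ hlt
    linarith
  -- local antipodality
  have anti : ∀ x ∈ X, ∀ z ∈ X, ‖z - x‖ ≤ 2 → (2 : ℝ) • x - z ∈ X := by
    intro x hx z hz hxz
    have h2 := hA x hx (z - x) hxz (by rw [add_sub_cancel]; exact hz)
    have h3 : (2 : ℝ) • x - z = x - (z - x) := by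
      rw [two_smul]; abel
    rw [h3]; exact h2
  -- the midpoint estimate
  have mid : ∀ x z : E, ∃ y ∈ X, ‖y - x‖ ≤ ‖z - x‖ / 2 + 1 ∧ ‖z - y‖ ≤ ‖z - x‖ / 2 + 1 ∧
      ‖(2 : ℝ) • y - z - x‖ ≤ 2 := by
    intro x z
    obtain ⟨y, hy, hym⟩ := hD.cov ((1 / 2 : ℝ) • (x + z))
    refine ⟨y, hy, ?_, ?_, ?_⟩
    · have e1 : y - x = (y - (1 / 2 : ℝ) • (x + z)) + (1 / 2 : ℝ) • (z - x) := by
        module
      have e2 : ‖(1 / 2 : ℝ) • (z - x)‖ = ‖z - x‖ / 2 := by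
        rw [norm_smul, Real.norm_eq_abs, abs_of_pos (by norm_num : (0 : ℝ) < 1 / 2)]; ring
      rw [e1]
      have := norm_add_le (y - (1 / 2 : ℝ) • (x + z)) ((1 / 2 : ℝ) • (z - x))
      linarith
    · have e1 : z - y = (1 / 2 : ℝ) • (z - x) - (y - (1 / 2 : ℝ) • (x + z)) := by
        module
      have e2 : ‖(1 / 2 : ℝ) • (z - x)‖ = ‖z - x‖ / 2 := by
        rw [norm_smul, Real.norm_eq_abs, abs_of_pos (by norm_num : (0 : ℝ) < 1 / 2)]; ring
      rw [e1]
      have := norm_sub_le ((1 / 2 : ℝ) • (z - x)) (y - (1 / 2 : ℝ) • (x + z))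
      linarith
    · have e1 : (2 : ℝ) • y - z - x = (2 : ℝ) • (y - (1 / 2 : ℝ) • (x + z)) := by
        module
      rw [e1, norm_smul, Real.norm_eq_abs, abs_of_pos (by norm_num : (0 : ℝ) < 2)]
      linarith
  -- claim A
  have A : ∀ n : ℕ, ∀ x ∈ X, ∀ z ∈ X, ‖z - x‖ ≤ 2 + γ * 2 ^ n → (2 : ℝ) • x - z ∈ X := by
    intro n
    induction n with
    | zero =>
      intro x hx z hz hxz
      rw [pow_zero, mul_one] at hxz
      exact anti x hx z hz (gap x hx z hz hxz)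
    | succ n ih =>
      intro x hx z hz hxz
      obtain ⟨y, hy, hyx, hzy, hyz⟩ := mid x z
      have hb : ‖z - x‖ / 2 + 1 ≤ 2 + γ * 2 ^ n := by
        rw [pow_succ] at hxz
        linarith
      have hp : (2 : ℝ) • y - z ∈ X := ih y hy z hz (hzy.trans hb)
      have hw : (2 : ℝ) • x - y ∈ X := ih x hx y hy (hyx.trans hb)
      have hq : (2 : ℝ) • x - ((2 : ℝ) • y - z) ∈ X := anti x hx _ hp hyz
      have h4 := ih _ hw _ hq (by
        have e1 : (2 : ℝ) • x - ((2 : ℝ) • y - z) - ((2 : ℝ) • x - y) = z - y := by module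
        rw [e1]; exact hzy.trans hb)
      have e2 : (2 : ℝ) • ((2 : ℝ) • x - y) - ((2 : ℝ) • x - ((2 : ℝ) • y - z)) =
          (2 : ℝ) • x - z := by module
      rw [e2] at h4
      exact h4
  have arch : ∀ R : ℝ, ∃ n : ℕ, R ≤ 2 + γ * 2 ^ n := by
    intro R
    obtain ⟨n, hn⟩ := pow_unbounded_of_one_lt (R / γ) (one_lt_two : (1 : ℝ) < 2)
    refine ⟨n, ?_⟩
    rw [div_lt_iff₀ hγ0] at hn
    linarith
  have A' : ∀ x ∈ X, ∀ z ∈ X, (2 : ℝ) • x - z ∈ X := by
    intro x hx z hz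
    obtain ⟨n, hn⟩ := arch ‖z - x‖
    exact A n x hx z hz hn
  -- claim B
  have B : ∀ x ∈ X, ∀ x' ∈ X, ∀ g : LI, Eqv X x x' 2 g →
      ∀ n : ℕ, ∀ z ∈ X, ‖z - x‖ ≤ 2 + γ * 2 ^ n → x' + g (z - x) ∈ X := by
    intro x hx x' hx' g hg n
    have base : ∀ z ∈ X, ‖z - x‖ ≤ 2 → x' + g (z - x) ∈ X := by
      intro z hz hzx
      exact (hg (z - x) hzx).1 (by rw [add_sub_cancel]; exact hz)
    induction n with
    | zero =>
      intro z hz hxz
      rw [pow_zero, mul_one] at hxz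
      exact base z hz (gap x hx z hz hxz)
    | succ n ih =>
      intro z hz hxz
      obtain ⟨y, hy, hyx, hzy, hyz⟩ := mid x z
      have hb : ‖z - x‖ / 2 + 1 ≤ 2 + γ * 2 ^ n := by
        rw [pow_succ] at hxz
        linarith
      have hFy := ih y hy (hyx.trans hb)
      have hz1 : (2 : ℝ) • y - z ∈ X := A' y hy z hz
      have hFz1 := base _ hz1 hyz
      have h5 := A' _ hFy _ hFz1
      have e1 : (2 : ℝ) • (x' + g (y - x)) - (x' + g ((2 : ℝ) • y - z - x)) = x' + g (z - x) := by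
        have e2 : (2 : ℝ) • y - z - x = (2 : ℝ) • (y - x) - (z - x) := by module
        have e3 : g ((2 : ℝ) • (y - x) - (z - x)) = (2 : ℝ) • g (y - x) - g (z - x) := by
          rw [map_sub g ((2 : ℝ) • (y - x)) (z - x), map_smul]
        rw [e2, e3]
        module
      rw [e1] at h5
      exact h5
  have B' : ∀ x ∈ X, ∀ x' ∈ X, ∀ g : LI, Eqv X x x' 2 g → ∀ z ∈ X, x' + g (z - x) ∈ X := by
    intro x hx x' hx' g hg z hz
    obtain ⟨n, hn⟩ := arch ‖z - x‖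
    exact B x hx x' hx' g hg n z hz hn
  -- conclusion
  intro x hx x' hx'
  obtain ⟨g, hg3⟩ := hN x hx x' hx'
  have hg : Eqv X x x' 2 g := hg3.mono (by norm_num)
  have hF : ∀ z : E, ((IsometryEquiv.subRight x).trans
      (g.toIsometryEquiv.trans (IsometryEquiv.addLeft x'))) z = x' + g (z - x) := fun z => rfl
  refine ⟨(IsometryEquiv.subRight x).trans (g.toIsometryEquiv.trans (IsometryEquiv.addLeft x')),
    ?_, ?_⟩
  · apply Set.Subset.antisymm
    · rintro _ ⟨z, hz, rfl⟩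
      rw [hF]
      exact B' x hx x' hx' g hg z hz
    · intro y hy
      have h6 := B' x' hx' x hx g⁻¹ hg.symm y hy
      refine ⟨x + g⁻¹ (y - x'), h6, ?_⟩
      rw [hF]
      have h7 : x + g⁻¹ (y - x') - x = g⁻¹ (y - x') := by abel
      rw [h7]
      have h8 : g (g⁻¹ (y - x')) = y - x' := LinearIsometryEquiv.apply_symm_apply g _
      rw [h8]
      abel
  · rw [hF, sub_self, map_zero, add_zero]

end Pool.Agent.H59
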