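import Pool.Agent.H770.GS.TB

/-!
# Project TB, TB2: Stein type positivity for the iterated truncated Gaussian convolution
-/

set_option autoImplicit false

open MeasureTheory Set intervalIntegral

namespace Pool.Agent.H59.TBstein

open Pool.Agent.H770.GS

theorem cv_add' {r b : ℝ} {f g : ℝ → ℝ} (hf : Continuous f) (hg : Continuous g) (v : ℝ) :
    cv r b (fun x => f x + g x) v = cv r b f v + cv r b g v := by
  unfold cv
  have hW := W_cont
  rw [← intervalIntegral.integral_add (Continuous.intervalIntegrable (by fun_prop) _ _)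
    (Continuous.intervalIntegrable (by fun_prop) _ _)]
  refine intervalIntegral.integral_congr fun u _ => ?_
  try simp only
  ring

theorem cv_sub' {r b : ℝ} {f g : ℝ → ℝ} (hf : Continuous f) (hg : Continuous g) (v : ℝ) :
    cv r b (fun x => f x - g x) v = cv r b f v - cv r b g v := by
  unfold cv
  have hW := W_cont
  rw [← intervalIntegral.integral_sub (Continuous.intervalIntegrable (by fun_prop) _ _)
    (Continuous.intervalIntegrable (by fun_prop) _ _)]
  refine intervalIntegral.integral_congr fun u _ => ?_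
  try simp only
  ring

theorem cv_mul' {r b : ℝ} (c : ℝ) (f : ℝ → ℝ) (v : ℝ) :
    cv r b (fun x => c * f x) v = c * cv r b f v := by
  unfold cv
  rw [← intervalIntegral.integral_const_mul]
  refine intervalIntegral.integral_congr fun u _ => ?_
  try simp only
  ring

theorem cv_shift {r b : ℝ} (c : ℝ) (f : ℝ → ℝ) (v : ℝ) :
    cv r b (fun x => f (x + c)) v = cv r b f (v + c) := by
  unfold cv
  refine intervalIntegral.integral_congr fun u _ => ?_
  try simp only
  rw [show v + b * u + c = v + c + b * u by ring]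

theorem dens_sub' {r : ℝ} (L : List ℝ) {f g : ℝ → ℝ} (hf : Continuous f) (hg : Continuous g) :
    dens r L (fun x => f x - g x) = fun v => dens r L f v - dens r L g v := by
  induction L with
  | nil => rfl
  | cons b L ih =>
    rw [dens_cons, ih]
    funext v
    rw [cv_sub' (dens_cont hf L) (dens_cont hg L)]
    rfl

theorem dens_deriv' {r : ℝ} (hr : 0 < r) {g d : ℝ → ℝ} (hg : ∀ x, HasDerivAt g (d x) x)
    (hd : Continuous d) (L : List ℝ) : ∀ x, HasDerivAt (dens r L g) (dens r L d x) x := by
  induction L with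
  | nil => exact hg
  | cons b L ih =>
    intro x
    rw [dens_cons, dens_cons]
    exact cv_deriv hr ih (dens_cont hd L) x

/-- Integration by parts. -/
theorem cv_x {r b : ℝ} {g d : ℝ → ℝ} (hg : ∀ x, HasDerivAt g (d x) x) (hd : Continuous d) (v : ℝ) :
    cv r b (fun x => x * g x) v =
      v * cv r b g v + b ^ 2 * cv r b d v - b * W r * (g (v + b * r) - g (v - b * r)) := by
  have hgc : Continuous g := continuous_iff_continuousAt.2 fun x => (hg x).continuousAt
  have hW := W_cont
  have h1 : ∀ u, HasDerivAt (fun u => g (v + b * u)) (d (v + b * u) * b) u := by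
    intro u
    have h2 : HasDerivAt (fun u : ℝ => v + b * u) b u := by
      have := ((hasDerivAt_id u).const_mul b).const_add v
      simpa using this
    exact (hg (v + b * u)).comp u h2
  have h3 := intervalIntegral.integral_mul_deriv_eq_deriv_mul (a := -r) (b := r)
    (u := fun u => g (v + b * u)) (v := W) (u' := fun u => d (v + b * u) * b)
    (v' := fun u => -(u * W u)) (fun u _ => h1 u) (fun u _ => W_deriv u)
    (Continuous.intervalIntegrable (by fun_prop) _ _)
    (Continuous.intervalIntegrable (by fun_prop) _ _)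
  have e1 : cv r b (fun x => x * g x) v = v * cv r b g v +
      b * (-∫ u in (-r)..r, g (v + b * u) * -(u * W u)) := by
    unfold cv
    rw [← intervalIntegral.integral_neg, ← intervalIntegral.integral_const_mul,
      ← intervalIntegral.integral_const_mul, ← intervalIntegral.integral_add
      (Continuous.intervalIntegrable (by fun_prop) _ _)
      (Continuous.intervalIntegrable (by fun_prop) _ _)]
    refine intervalIntegral.integral_congr fun u _ => ?_
    try simp only
    ring
  have e2 : ∫ u in (-r)..r, d (v + b * u) * b * W u = b * cv r b d v := by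
    unfold cv
    rw [← intervalIntegral.integral_const_mul]
    refine intervalIntegral.integral_congr fun u _ => ?_
    try simp only
    ring
  rw [e1, h3, e2, W_even, show v + b * -r = v - b * r by ring]
  ring

/-- The iterated identity. -/
theorem dens_x {r b : ℝ} (hr : 0 < r) {g d : ℝ → ℝ} (hg : ∀ x, HasDerivAt g (d x) x)
    (hd : Continuous d) (j : ℕ) : ∀ v,
    dens r (List.replicate (j + 1) b) (fun x => x * g x) v =
      v * dens r (List.replicate (j + 1) b) g v +
      ((j : ℝ) + 1) * b ^ 2 * dens r (List.replicate (j + 1) b) d v -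
      ((j : ℝ) + 1) * b * W r * (dens r (List.replicate j b) g (v + b * r) -
        dens r (List.replicate j b) g (v - b * r)) := by
  have hgc : Continuous g := continuous_iff_continuousAt.2 fun x => (hg x).continuousAt
  induction j with
  | zero =>
    intro v
    have := cv_x (r := r) (b := b) hg hd v
    simp only [List.replicate, dens_cons, dens_nil, Nat.cast_zero]
    rw [this]
    ring
  | succ j ih =>
    intro v
    obtain ⟨H, hH⟩ : ∃ H, H = dens r (List.replicate j b) g := ⟨_, rfl⟩
    obtain ⟨G, hG⟩ : ∃ G, G = dens r (List.replicate (j + 1) b) g := ⟨_, rfl⟩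
    obtain ⟨G', hG'⟩ : ∃ G', G' = dens r (List.replicate (j + 1) b) d := ⟨_, rfl⟩
    have hHc : Continuous H := by rw [hH]; exact dens_cont hgc _
    have hGc : Continuous G := by rw [hG]; exact dens_cont hgc _
    have hG'c : Continuous G' := by rw [hG']; exact dens_cont hd _
    have hGd : ∀ x, HasDerivAt G (G' x) x := by
      rw [hG, hG']; exact dens_deriv' hr hg hd _
    have hGH : G = cv r b H := by rw [hG, hH]; rfl
    have e0 : dens r (List.replicate (j + 1) b) (fun x => x * g x) = fun v =>
        (v * G v + ((j : ℝ) + 1) * b ^ 2 * G' v) -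
          ((j : ℝ) + 1) * b * W r * (H (v + b * r) - H (v + -(b * r))) := by
      funext v
      rw [ih v, hG, hG', hH, sub_eq_add_neg v]
    have e1 : dens r (List.replicate (j + 1 + 1) b) (fun x => x * g x) v =
        cv r b (dens r (List.replicate (j + 1) b) (fun x => x * g x)) v := rfl
    have e2 : dens r (List.replicate (j + 1 + 1) b) g v = cv r b G v := by rw [hG]; rfl
    have e3 : dens r (List.replicate (j + 1 + 1) b) d v = cv r b G' v := by rw [hG']; rfl
    rw [e1, e0, cv_sub' (by fun_prop) (by fun_prop), cv_add' (by fun_prop) (by fun_prop), cv_mul',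
      cv_mul', cv_sub' (by fun_prop) (by fun_prop), cv_shift, cv_shift, cv_x hGd hG'c, e2, e3,
      ← hG, ← hGH, ← sub_eq_add_neg v]
    push_cast
    ring

theorem win_nonneg {g : ℝ → ℝ} (hc : Continuous g) (ho : ∀ x, g (-x) = -g x)
    (hp : ∀ x, 0 ≤ x → 0 ≤ g x) {v t : ℝ} (hv : 0 ≤ v) (ht : 0 ≤ t) :
    0 ≤ ∫ u in (v - t)..(v + t), g u := by
  have ii : ∀ a b, IntervalIntegrable g volume a b := fun a b => hc.intervalIntegrable a b
  rcases le_total t v with h | h
  · refine intervalIntegral.integral_nonneg (by linarith) ?_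
    intro u hu
    exact hp u (by linarith [hu.1])
  · rw [← intervalIntegral.integral_add_adjacent_intervals (ii (v - t) (t - v))
      (ii (t - v) (v + t))]
    have h1 := odd_int ho (t - v)
    rw [neg_sub] at h1
    rw [h1, zero_add]
    refine intervalIntegral.integral_nonneg (by linarith) ?_
    intro u hu
    exact hp u (by linarith [hu.1])

theorem cv_pos {r b : ℝ} {g : ℝ → ℝ} (hr : 0 < r) (hb : 0 < b) (hc : Continuous g)
    (ho : ∀ x, g (-x) = -g x) (hp : ∀ x, 0 ≤ x → 0 ≤ g x) (v : ℝ) (hv : 0 ≤ v) :
    0 ≤ cv r b g v := by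
  have hin : ∀ s, 0 ≤ s → 0 ≤ ∫ u in (-s)..s, g (v + b * u) := by
    intro s hs
    rw [intervalIntegral.integral_comp_add_mul _ hb.ne']
    rw [show v + b * -s = v - b * s by ring]
    exact mul_nonneg (inv_nonneg.2 hb.le) (win_nonneg hc ho hp hv (by positivity))
  unfold cv
  rw [mix (g := fun u => g (v + b * u)) (by fun_prop) r]
  refine add_nonneg (mul_nonneg (W_pos r).le (hin r hr.le)) ?_
  refine intervalIntegral.integral_nonneg hr.le ?_
  intro s hs
  exact mul_nonneg (mul_nonneg hs.1 (W_pos s).le) (hin s hs.1)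

theorem dens_pos {r b : ℝ} {g : ℝ → ℝ} (hr : 0 < r) (hb : 0 < b) (hc : Continuous g)
    (ho : ∀ x, g (-x) = -g x) (hp : ∀ x, 0 ≤ x → 0 ≤ g x) (j : ℕ) :
    ∀ v, 0 ≤ v → 0 ≤ dens r (List.replicate j b) g v := by
  induction j with
  | zero => exact hp
  | succ j ih =>
    intro v hv
    rw [List.replicate_succ, dens_cons]
    exact cv_pos hr hb (dens_cont hc _) (dens_odd ho _) ih v hv

/-- The main identity and the positivity. -/
theorem stein : S_stein := by
  intro r k Δ hr hk hΔ heven hpos
  obtain ⟨j, rfl⟩ : ∃ j, k = j + 1 := ⟨k - 1, by omega⟩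
  have hW := W_cont
  have hk0 : (0 : ℝ) < ((j + 1 : ℕ) : ℝ) := by positivity
  set b : ℝ := 1 / Real.sqrt ((j + 1 : ℕ) : ℝ) with hb
  have hb0 : 0 < b := by
    have := Real.sqrt_pos.2 hk0
    positivity
  have hb2 : ((j : ℝ) + 1) * b ^ 2 = 1 := by
    rw [hb, div_pow, Real.sq_sqrt hk0.le]
    push_cast
    field_simp
  obtain ⟨Φ, hΦ⟩ : ∃ Φ : ℝ → ℝ, Φ = fun η => ∫ z in (0:ℝ)..η, Δ z * W z := ⟨_, rfl⟩
  have hΦd : ∀ x, HasDerivAt Φ (Δ x * W x) x := by
    intro x
    have hc : Continuous fun z => Δ z * W z := hΔ.mul W_cont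
    rw [hΦ]
    exact intervalIntegral.integral_hasDerivAt_right (hc.intervalIntegrable _ _)
      (hc.stronglyMeasurableAtFilter _ _) hc.continuousAt
  have hΦo : ∀ x, Φ (-x) = -Φ x := by
    intro x
    rw [hΦ]
    have h := intervalIntegral.integral_comp_neg (a := 0) (b := x) (fun z => Δ z * W z)
    simp only [heven, W_even, neg_zero] at h
    simp only
    rw [h, intervalIntegral.integral_symm]
  have hΦp : ∀ x, 0 ≤ x → 0 ≤ Φ x := by
    intro x hx
    rw [hΦ]
    exact hpos x hx
  obtain ⟨g, hg⟩ : ∃ g : ℝ → ℝ, g = fun x => Real.exp (x ^ 2 / 2) * Φ x := ⟨_, rfl⟩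
  have hgd : ∀ x, HasDerivAt g (x * g x + Δ x) x := by
    intro x
    have h1 : HasDerivAt (fun x : ℝ => x ^ 2 / 2) x x := by
      have := (hasDerivAt_pow 2 x).div_const 2
      refine this.congr_deriv ?_
      norm_num
    have h2 := (h1.exp).mul (hΦd x)
    rw [hg]
    refine h2.congr_deriv ?_
    have h3 : Real.exp (x ^ 2 / 2) * W x = 1 := by
      unfold W
      rw [← Real.exp_add, show x ^ 2 / 2 + -x ^ 2 / 2 = 0 by ring, Real.exp_zero]
    simp only
    calc Real.exp (x ^ 2 / 2) * x * Φ x + Real.exp (x ^ 2 / 2) * (Δ x * W x)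
        = x * (Real.exp (x ^ 2 / 2) * Φ x) + Δ x * (Real.exp (x ^ 2 / 2) * W x) := by ring
      _ = _ := by rw [h3, mul_one]
  have hgc : Continuous g := continuous_iff_continuousAt.2 fun x => (hgd x).continuousAt
  have hdc : Continuous fun x => x * g x + Δ x := by fun_prop
  have hxc : Continuous fun x => x * g x := by fun_prop
  have hgo : ∀ x, g (-x) = -g x := by
    intro x
    rw [hg]
    simp only
    rw [hΦo, neg_sq]
    ring
  have hgp : ∀ x, 0 ≤ x → 0 ≤ g x := by
    intro x hx
    rw [hg]
    exact mul_nonneg (Real.exp_pos _).le (hΦp x hx)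
  have hΔe : Δ = fun x => (x * g x + Δ x) - x * g x := by
    funext x
    ring
  have e1 := dens_x (b := b) hr hgd hdc j 0
  have e2 : dens r (List.replicate (j + 1) b) Δ 0 =
      dens r (List.replicate (j + 1) b) (fun x => x * g x + Δ x) 0 -
        dens r (List.replicate (j + 1) b) (fun x => x * g x) 0 := by
    conv_lhs => rw [hΔe]
    rw [dens_sub' _ hdc hxc]
  rw [hb2, zero_mul, zero_add, one_mul, zero_add, zero_sub, dens_odd hgo] at e1
  rw [e2, e1]
  have h4 := dens_pos hr hb0 hgc hgo hgp j (b * r) (by positivity)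
  have h5 := (W_pos r).le
  have h6 : 0 ≤ ((j : ℝ) + 1) * b * W r := by positivity
  have h7 := mul_nonneg h6 h4
  linarith

end Pool.Agent.H59.TBstein
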